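import Mathlib

set_option autoImplicit false

/-!
The normed space of Lipschitz functions on the circle `ℝ/ℤ`, shy sets, Weierstrass functions,
their graphs and the projections `P_θ`.
-/

namespace Pool.Agent.Lib.MP_60983f_an

open MeasureTheory Pointwise

/-- The additive group of real Lipschitz functions on the circle `ℝ/ℤ`. -/
def lipSubgroup : AddSubgroup (UnitAddCircle → ℝ) where
  carrier := {g | ∃ K, LipschitzWith K g}
  add_mem' := fun ⟨K, hK⟩ ⟨L, hL⟩ => ⟨K + L, hK.add hL⟩
  zero_mem' := ⟨0, LipschitzWith.const 0⟩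
  neg_mem' := fun ⟨K, hK⟩ => ⟨K, hK.neg⟩

/-- `Lip(S¹)` as a type of its own, so that it carries only the Lipschitz norm topology. -/
def Lip : Type := lipSubgroup

instance : AddCommGroup Lip := lipSubgroup.toAddCommGroup

/-- The function underlying an element of `Lip`. -/
def Lip.toFun (g : Lip) : UnitAddCircle → ℝ := Subtype.val g

/-- `sup |g|`. -/
noncomputable def supNorm (g : Lip) : ℝ := ⨆ x : UnitAddCircle, |g.toFun x|

/-- `sup_{x ≠ y} |g x - g y| / |x - y|`. -/
noncomputable def lipSeminorm (g : Lip) : ℝ :=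
  ⨆ p : {p : UnitAddCircle × UnitAddCircle // p.1 ≠ p.2},
    |g.toFun p.1.1 - g.toFun p.1.2| / dist p.1.1 p.1.2

theorem bdd_sup (g : Lip) : BddAbove (Set.range fun x : UnitAddCircle => |g.toFun x|) := by
  obtain ⟨K, hK⟩ := g.2
  exact (isCompact_range (continuous_abs.comp hK.continuous)).bddAbove

theorem bdd_lip (g : Lip) : BddAbove (Set.range
    fun p : {p : UnitAddCircle × UnitAddCircle // p.1 ≠ p.2} =>
      |g.toFun p.1.1 - g.toFun p.1.2| / dist p.1.1 p.1.2) := by
  obtain ⟨K, hK⟩ := g.2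
  refine ⟨K, ?_⟩
  rintro _ ⟨p, rfl⟩
  exact (div_le_iff₀ (dist_pos.2 p.2)).2 (hK.dist_le_mul _ _)

theorem supNorm_nonneg (g : Lip) : 0 ≤ supNorm g := Real.iSup_nonneg fun _ => abs_nonneg _

theorem lipSeminorm_nonneg (g : Lip) : 0 ≤ lipSeminorm g :=
  Real.iSup_nonneg fun _ => div_nonneg (abs_nonneg _) dist_nonneg

/-- The norm `‖g‖_Lip = sup |g| + sup_{x ≠ y} |g x - g y| / |x - y|`. -/
noncomputable def lipNorm : AddGroupNorm Lip where
  toFun g := supNorm g + lipSeminorm g
  map_zero' := by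
    have h : ∀ x, Lip.toFun 0 x = 0 := fun _ => rfl
    simp [supNorm, lipSeminorm, h]
  add_le' g h := by
    have h1 : supNorm (g + h) ≤ supNorm g + supNorm h :=
      Real.iSup_le (fun x => (abs_add_le (g.toFun x) (h.toFun x)).trans
        (add_le_add (le_ciSup (bdd_sup g) x) (le_ciSup (bdd_sup h) x)))
        (add_nonneg (supNorm_nonneg g) (supNorm_nonneg h))
    have h2 : lipSeminorm (g + h) ≤ lipSeminorm g + lipSeminorm h := by
      refine Real.iSup_le (fun p => le_trans ?_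
        (add_le_add (le_ciSup (bdd_lip g) p) (le_ciSup (bdd_lip h) p)))
        (add_nonneg (lipSeminorm_nonneg g) (lipSeminorm_nonneg h))
      rw [← add_div]
      refine div_le_div_of_nonneg_right (le_trans (le_of_eq ?_) (abs_add_le _ _)) dist_nonneg
      change |(g.toFun p.1.1 + h.toFun p.1.1) - (g.toFun p.1.2 + h.toFun p.1.2)| = _
      congr 1
      ring
    linarith
  neg' g := by
    have h : ∀ x, Lip.toFun (-g) x = -g.toFun x := fun _ => rfl
    simp only [supNorm, lipSeminorm, h, abs_neg, neg_sub_neg, abs_sub_comm]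
  eq_zero_of_map_eq_zero' g hg := by
    have h0 : supNorm g = 0 := by linarith [supNorm_nonneg g, lipSeminorm_nonneg g]
    refine Subtype.ext (funext fun x => ?_)
    have : |g.toFun x| ≤ 0 := h0 ▸ le_ciSup (bdd_sup g) x
    exact abs_nonpos_iff.1 this

noncomputable instance : NormedAddCommGroup Lip := lipNorm.toNormedAddCommGroup

/-- `A` is shy: some Borel measure, finite and positive on some compact set, vanishes on every
translate of some Borel superset of `A`. -/
def IsShy {X : Type} [NormedAddCommGroup X] (A : Set X) : Prop :=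
  ∃ (μ : @Measure X (borel X)) (B : Set X), MeasurableSet[borel X] B ∧ A ⊆ B ∧
    (∃ K : Set X, IsCompact K ∧ 0 < μ K ∧ μ K < ⊤) ∧ ∀ x : X, μ (x +ᵥ B) = 0

/-- `W_g(x) = ∑_{k ≥ 0} b^{-αk} g(b^k x)`. -/
noncomputable def weierstrass (b : ℕ) (α : ℝ) (g : Lip) (x : ℝ) : ℝ :=
  ∑' k : ℕ, (b : ℝ) ^ (-α * k) * g.toFun (((b : ℝ) ^ k * x : ℝ) : UnitAddCircle)

/-- The graph `Γ_g` of `W_g` over `[0,1]`, in the Euclidean plane. -/
def graph (b : ℕ) (α : ℝ) (g : Lip) : Set (EuclideanSpace ℝ (Fin 2)) :=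
  {p | p 0 ∈ Set.Icc (0 : ℝ) 1 ∧ p 1 = weierstrass b α g (p 0)}

/-- `P_θ(x,y) = x cos θ + y sin θ`. -/
noncomputable def proj (θ : ℝ) (p : EuclideanSpace ℝ (Fin 2)) : ℝ :=
  p 0 * Real.cos θ + p 1 * Real.sin θ

end Pool.Agent.Lib.MP_60983f_an
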