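import Pool.Agent.Lib.MP_60983f_an.Proof

set_option autoImplicit false

namespace Pool.Agent.Lib.MP_60983f_an

open MeasureTheory Pointwise Set

/-- A scalar multiple of a Lipschitz function. -/
noncomputable def scl (s : ℝ) (g : Lip) : Lip :=
  (⟨fun y => s * g.toFun y, by
    obtain ⟨K, hK⟩ := g.2
    exact ⟨‖s‖₊ * K, (lipschitzWith_smul s).comp hK⟩⟩ : lipSubgroup)

theorem scl_apply (s : ℝ) (g : Lip) (y : UnitAddCircle) : (scl s g).toFun y = s * g.toFun y := rfl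

theorem norm_scl_le (s : ℝ) (g : Lip) : ‖scl s g‖ ≤ |s| * ‖g‖ := by
  rw [norm_def, norm_def, mul_add]
  refine add_le_add (Real.iSup_le (fun x => ?_) (mul_nonneg (abs_nonneg _) (supNorm_nonneg g)))
    (Real.iSup_le (fun p => ?_) (mul_nonneg (abs_nonneg _) (lipSeminorm_nonneg g)))
  · rw [scl_apply, abs_mul]
    exact mul_le_mul_of_nonneg_left (le_ciSup (bdd_sup g) x) (abs_nonneg _)
  · rw [scl_apply, scl_apply, ← mul_sub, abs_mul, mul_div_assoc]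
    exact mul_le_mul_of_nonneg_left (le_ciSup (bdd_lip g) p) (abs_nonneg _)

theorem weierstrass_scl (b : ℕ) (α s : ℝ) (g : Lip) (x : ℝ) :
    weierstrass b α (scl s g) x = s * weierstrass b α g x := by
  unfold weierstrass
  rw [← tsum_mul_left]
  congr 1
  ext k
  rw [scl_apply]
  ring

theorem abs_weierstrass_le (b : ℕ) (hb : 2 ≤ b) (α : ℝ) (hα : 0 < α) (g : Lip) :
    ∃ C, ∀ x, |weierstrass b α g x| ≤ C := by
  have hβ : (1 : ℝ) < b := by exact_mod_cast (show 1 < b by omega)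
  have hβ0 : (0 : ℝ) < b := lt_trans one_pos hβ
  have h0 : 0 < (b : ℝ) ^ (-α) := Real.rpow_pos_of_pos hβ0 _
  have h1 : (b : ℝ) ^ (-α) < 1 := Real.rpow_lt_one_of_one_lt_of_neg hβ (by linarith)
  refine ⟨(1 - (b : ℝ) ^ (-α))⁻¹ * ‖g‖, fun x => ?_⟩
  have hW : weierstrass b α g x =
      ∑' k : ℕ, ((b : ℝ) ^ (-α)) ^ k * g.toFun (((b : ℝ) ^ k * x : ℝ) : UnitAddCircle) := by
    unfold weierstrass
    congr 1
    ext k
    rw [Real.rpow_mul hβ0.le, Real.rpow_natCast]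
  rw [hW]
  exact abs_tsum_le h0.le h1 fun k => abs_le_norm g _

theorem abs_proj_le {b : ℕ} {α : ℝ} {g : Lip} {C : ℝ} (hC : ∀ x, |weierstrass b α g x| ≤ C)
    (θ : ℝ) : ∀ r ∈ proj θ '' graph b α g, |r| ≤ 1 + C := by
  rintro _ ⟨p, hp, rfl⟩
  unfold proj
  refine (abs_add_le _ _).trans (add_le_add ?_ ?_)
  · rw [abs_mul, abs_of_nonneg hp.1.1]
    exact mul_le_one₀ hp.1.2 (abs_nonneg _) (Real.abs_cos_le_one θ)
  · rw [abs_mul, hp.2]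
    exact (mul_le_of_le_one_right (abs_nonneg _) (Real.abs_sin_le_one θ)).trans (hC _)

theorem graph_ext {b : ℕ} {α : ℝ} {g : Lip} {p q : EuclideanSpace ℝ (Fin 2)}
    (hp : p ∈ graph b α g) (hq : q ∈ graph b α g) (h : p 0 = q 0) : p = q := by
  ext i
  fin_cases i
  · exact h
  · change p 1 = q 1
    rw [hp.2, hq.2, h]

theorem proj_mem (b : ℕ) (α : ℝ) (g : Lip) (θ : ℝ) {x : ℝ} (hx : x ∈ Icc (0 : ℝ) 1) :
    x * Real.cos θ + weierstrass b α g x * Real.sin θ ∈ proj θ '' graph b α g :=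
  ⟨(!₂[x, weierstrass b α g x] : EuclideanSpace ℝ (Fin 2)), ⟨by simpa using hx, by simp⟩,
    by simp [proj]⟩

theorem exists_slice_of_cross (b : ℕ) (hb : 2 ≤ b) (α : ℝ) (hα : 0 < α) (g : Lip) (θ : ℝ)
    {F : ℝ → ℝ} {κ : ℝ} (hκ : κ ≠ 0)
    (hF : ∀ x, x * Real.cos θ + weierstrass b α g x * Real.sin θ = κ * F x)
    (hr : ∀ x, (b : ℝ)⁻¹ < x → F (b : ℝ)⁻¹ < F x) (hl : ∀ x, x < (b : ℝ)⁻¹ → F x < F (b : ℝ)⁻¹) :
    ∃ t ∈ Ioo (sInf (proj θ '' graph b α g)) (sSup (proj θ '' graph b α g)),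
      (graph b α g ∩ proj θ ⁻¹' {t}).Subsingleton := by
  have hβ : (1 : ℝ) < b := by exact_mod_cast (show 1 < b by omega)
  have hβ0 : (0 : ℝ) < b := lt_trans one_pos hβ
  obtain ⟨C, hC⟩ := abs_weierstrass_le b hb α hα g
  have hlo : ∀ x ∈ Icc (0 : ℝ) 1, sInf (proj θ '' graph b α g) ≤ κ * F x := fun x hx =>
    hF x ▸ csInf_le ⟨-(1 + C), fun r hr => (abs_le.1 (abs_proj_le hC θ r hr)).1⟩
      (proj_mem b α g θ hx)
  have hhi : ∀ x ∈ Icc (0 : ℝ) 1, κ * F x ≤ sSup (proj θ '' graph b α g) := fun x hx =>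
    hF x ▸ le_csSup ⟨1 + C, fun r hr => (abs_le.1 (abs_proj_le hC θ r hr)).2⟩
      (proj_mem b α g θ hx)
  have h0 := hl 0 (inv_pos.2 hβ0)
  have h1 := hr 1 (inv_lt_one_of_one_lt₀ hβ)
  have m0 : (0 : ℝ) ∈ Icc (0 : ℝ) 1 := ⟨le_rfl, zero_le_one⟩
  have m1 : (1 : ℝ) ∈ Icc (0 : ℝ) 1 := ⟨zero_le_one, le_rfl⟩
  refine ⟨κ * F (b : ℝ)⁻¹, ?_, ?_⟩
  · rcases lt_or_gt_of_ne hκ with h | h
    · exact ⟨(hlo 1 m1).trans_lt (mul_lt_mul_of_neg_left h1 h),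
        (mul_lt_mul_of_neg_left h0 h).trans_le (hhi 0 m0)⟩
    · exact ⟨(hlo 0 m0).trans_lt (mul_lt_mul_of_pos_left h0 h),
        (mul_lt_mul_of_pos_left h1 h).trans_le (hhi 1 m1)⟩
  · have key : ∀ p ∈ graph b α g ∩ proj θ ⁻¹' {κ * F (b : ℝ)⁻¹}, p 0 = (b : ℝ)⁻¹ := by
      rintro p ⟨hp, hpt⟩
      rw [mem_preimage, mem_singleton_iff, proj, hp.2, hF] at hpt
      have hpt' := mul_left_cancel₀ hκ hpt
      rcases lt_trichotomy (p 0) (b : ℝ)⁻¹ with h | h | h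
      · exact absurd hpt' (hl _ h).ne
      · exact h
      · exact absurd hpt' (hr _ h).ne'
    exact fun p hp q hq => graph_ext hp.1 hq.1 ((key p hp).trans (key q hq).symm)

/-- A ball of functions with a one-point non-extremal slice in a given oblique direction. -/
theorem exists_ball_oblique (b : ℕ) (hb : 2 ≤ b) (α : ℝ) (hα : 0 < α) {θ : ℝ}
    (hs : Real.sin θ ≠ 0) (hc : Real.cos θ ≠ 0) :
    ∃ (g₀ : Lip) (ε : ℝ), 0 < ε ∧ ∀ g ∈ Metric.ball g₀ ε, (∃ x y, g.toFun x ≠ g.toFun y) ∧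
      ∃ t ∈ Ioo (sInf (proj θ '' graph b α g)) (sSup (proj θ '' graph b α g)),
        dimH (graph b α g ∩ proj θ ⁻¹' {t}) = 0 := by
  obtain ⟨g₀, c₀, hc₀, h⟩ := exists_ball b hb α hα
  set s : ℝ := Real.cos θ / (c₀ * Real.sin θ) with hsdef
  have hs0 : s ≠ 0 := div_ne_zero hc (mul_ne_zero hc₀.ne' hs)
  have habs : 0 < |s| := abs_pos.2 hs0
  refine ⟨scl s g₀, |s| / 4, by positivity, fun g hg => ?_⟩
  have hg' : scl s⁻¹ g ∈ Metric.ball g₀ (1 / 4) := by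
    rw [Metric.mem_ball, dist_eq_norm] at hg ⊢
    have e : scl s⁻¹ g - g₀ = scl s⁻¹ (g - scl s g₀) := by
      refine Subtype.ext (funext fun y => ?_)
      change s⁻¹ * g.toFun y - g₀.toFun y = s⁻¹ * (g.toFun y - s * g₀.toFun y)
      field_simp
    rw [e]
    refine (norm_scl_le _ _).trans_lt ?_
    rw [abs_inv, inv_mul_lt_iff₀ habs]
    linarith
  obtain ⟨⟨x, y, hxy⟩, h2⟩ := h _ hg'
  obtain ⟨hr, hl, -⟩ := h2 c₀ le_rfl
  refine ⟨⟨x, y, fun he => hxy (by rw [scl_apply, scl_apply, he])⟩, ?_⟩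
  obtain ⟨t, ht, hsub⟩ := exists_slice_of_cross b hb α hα g θ
    (F := fun x => weierstrass b α (scl s⁻¹ g) x + c₀ * x) (κ := Real.cos θ / c₀)
    (div_ne_zero hc hc₀.ne') (fun x => by
      rw [weierstrass_scl, hsdef]
      field_simp
      ring) hr hl
  exact ⟨t, ht, dimH_subsingleton hsub⟩

theorem countable_half {Γ : Set (EuclideanSpace ℝ (Fin 2))}
    (hΓ : ∀ p ∈ Γ, ∀ q ∈ Γ, p 0 = q 0 → p = q) (hb : ∀ θ, BddAbove (proj θ '' Γ)) (σ : ℝ)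
    {T : Set ℝ} (hT : ∀ θ ∈ T, 0 < σ * Real.sin θ)
    (hT2 : ∀ θ ∈ T, ∀ θ' ∈ T, θ ≠ θ' → σ * Real.sin (θ' - θ) ≠ 0) :
    {θ ∈ T | ¬ (Γ ∩ proj θ ⁻¹' {sSup (proj θ '' Γ)}).Subsingleton}.Countable := by
  set S := {θ ∈ T | ¬ (Γ ∩ proj θ ⁻¹' {sSup (proj θ '' Γ)}).Subsingleton} with hS
  have hex : ∀ θ ∈ S, ∃ p ∈ Γ ∩ proj θ ⁻¹' {sSup (proj θ '' Γ)},
      ∃ q ∈ Γ ∩ proj θ ⁻¹' {sSup (proj θ '' Γ)}, p 0 < q 0 := by
    intro θ hθ
    obtain ⟨p, hp, q, hq, hpq⟩ := not_subsingleton_iff.1 hθ.2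
    rcases lt_or_gt_of_ne (fun h => hpq (hΓ p hp.1 q hq.1 h)) with h | h
    · exact ⟨p, hp, q, hq, h⟩
    · exact ⟨q, hq, p, hp, h⟩
  choose! p hp q hq hpq using hex
  have side : ∀ θ ∈ T, ∀ θ' ∈ T, ∀ u ∈ Γ ∩ proj θ ⁻¹' {sSup (proj θ '' Γ)},
      ∀ v ∈ Γ ∩ proj θ' ⁻¹' {sSup (proj θ' '' Γ)},
        0 ≤ (u 0 - v 0) * (σ * Real.sin (θ' - θ)) := by
    intro θ hθ θ' hθ' u hu v hv
    have h1 : proj θ v ≤ proj θ u := by
      rw [show proj θ u = _ from hu.2]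
      exact le_csSup (hb θ) (mem_image_of_mem _ hv.1)
    have h2 : proj θ' u ≤ proj θ' v := by
      rw [show proj θ' v = _ from hv.2]
      exact le_csSup (hb θ') (mem_image_of_mem _ hu.1)
    unfold proj at h1 h2
    have h3 := mul_nonneg (hT θ' hθ').le (sub_nonneg.2 h1)
    have h4 := mul_nonneg (hT θ hθ).le (sub_nonneg.2 h2)
    rw [Real.sin_sub]
    nlinarith
  refine PairwiseDisjoint.countable_of_isOpen (s := fun θ => Ioo (p θ 0) (q θ 0)) ?_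
    (fun _ _ => isOpen_Ioo) fun θ hθ => nonempty_Ioo.2 (hpq θ hθ)
  intro θ hθ θ' hθ' hne
  refine disjoint_left.2 fun x hx hx' => ?_
  rcases lt_or_gt_of_ne (hT2 θ hθ.1 θ' hθ'.1 hne) with h | h
  · have := side θ hθ.1 θ' hθ'.1 _ (hq θ hθ) _ (hp θ' hθ')
    nlinarith [hx.2, hx'.1]
  · have := side θ hθ.1 θ' hθ'.1 _ (hp θ hθ) _ (hq θ' hθ')
    nlinarith [hx.1, hx'.2]

/-- For every `g`, all but countably many upper extremal slices have at most one point. -/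
theorem countable_extremal (b : ℕ) (hb : 2 ≤ b) (α : ℝ) (hα : 0 < α) (g : Lip) :
    {θ ∈ Ico (0 : ℝ) (2 * Real.pi) | ¬ (graph b α g ∩
      proj θ ⁻¹' {sSup (proj θ '' graph b α g)}).Subsingleton}.Countable := by
  obtain ⟨C, hC⟩ := abs_weierstrass_le b hb α hα g
  have hbd : ∀ θ, BddAbove (proj θ '' graph b α g) := fun θ =>
    ⟨1 + C, fun r hr => (abs_le.1 (abs_proj_le hC θ r hr)).2⟩
  have hΓ : ∀ p ∈ graph b α g, ∀ q ∈ graph b α g, p 0 = q 0 → p = q :=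
    fun _ hp _ hq => graph_ext hp hq
  have hne : ∀ x : ℝ, -Real.pi < x → x < Real.pi → x ≠ 0 → Real.sin x ≠ 0 := fun x h1 h2 h3 h =>
    h3 ((Real.sin_eq_zero_iff_of_lt_of_lt h1 h2).1 h)
  have h1 := countable_half hΓ hbd 1 (T := Ioo 0 Real.pi)
    (fun θ hθ => by rw [one_mul]; exact Real.sin_pos_of_pos_of_lt_pi hθ.1 hθ.2)
    (fun θ hθ θ' hθ' h => mul_ne_zero one_ne_zero (hne _ (by linarith [hθ.2, hθ'.1])
      (by linarith [hθ.1, hθ'.2]) (sub_ne_zero.2 h.symm)))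
  have h2 := countable_half hΓ hbd (-1) (T := Ioo Real.pi (2 * Real.pi))
    (fun θ hθ => by
      have := Real.sin_pos_of_pos_of_lt_pi (x := θ - Real.pi) (by linarith [hθ.1])
        (by linarith [hθ.2])
      rw [Real.sin_sub_pi] at this
      linarith)
    (fun θ hθ θ' hθ' h => mul_ne_zero (by norm_num) (hne _ (by linarith [hθ.2, hθ'.1])
      (by linarith [hθ.1, hθ'.2]) (sub_ne_zero.2 h.symm)))
  refine ((h1.union h2).union ((countable_singleton Real.pi).insert 0)).mono fun θ hθ => ?_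
  rcases eq_or_lt_of_le hθ.1.1 with h | h
  · exact Or.inr (Or.inl h.symm)
  rcases lt_trichotomy θ Real.pi with h' | h' | h'
  · exact Or.inl (Or.inl ⟨⟨h, h'⟩, hθ.2⟩)
  · exact Or.inr (Or.inr h')
  · exact Or.inl (Or.inr ⟨⟨h', hθ.1.2⟩, hθ.2⟩)

/-- For every `g` some extremal slice in a non-vertical direction has dimension zero. -/
theorem exists_extremal (b : ℕ) (hb : 2 ≤ b) (α : ℝ) (hα : 0 < α) (g : Lip) :
    ∃ θ ∈ Ico (0 : ℝ) (2 * Real.pi), Real.sin θ ≠ 0 ∧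
      ∃ t ∈ Icc (sInf (proj θ '' graph b α g)) (sSup (proj θ '' graph b α g)),
        dimH (graph b α g ∩ proj θ ⁻¹' {t}) = 0 := by
  obtain ⟨C, hC⟩ := abs_weierstrass_le b hb α hα g
  obtain ⟨θ, hθ, hθ'⟩ := ((countable_extremal b hb α hα g).dense_compl ℝ).inter_open_nonempty
    (Ioo 0 Real.pi) isOpen_Ioo (nonempty_Ioo.2 Real.pi_pos)
  have hm : θ ∈ Ico (0 : ℝ) (2 * Real.pi) := ⟨hθ.1.le, by linarith [hθ.2, Real.pi_pos]⟩
  refine ⟨θ, hm, (Real.sin_pos_of_pos_of_lt_pi hθ.1 hθ.2).ne', _, ⟨?_, le_rfl⟩,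
    dimH_subsingleton (by_contra fun h => hθ' ⟨hm, h⟩)⟩
  exact Real.sInf_le_sSup _ ⟨-(1 + C), fun r hr => (abs_le.1 (abs_proj_le hC θ r hr)).1⟩
    ⟨1 + C, fun r hr => (abs_le.1 (abs_proj_le hC θ r hr)).2⟩

end Pool.Agent.Lib.MP_60983f_an
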