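import Pool.Agent.Lib.MP_60983f_an.Defs

set_option autoImplicit false

namespace Pool.Agent.Lib.MP_60983f_an

open MeasureTheory Pointwise Set

/-- A set containing a ball is not shy. -/
theorem not_isShy_of_ball {X : Type} [NormedAddCommGroup X] {A : Set X} {g₀ : X} {ε : ℝ}
    (hε : 0 < ε) (hA : Metric.ball g₀ ε ⊆ A) : ¬ IsShy A := by
  rintro ⟨μ, B, -, hAB, ⟨K, hK, hK0, -⟩, hμ⟩
  obtain ⟨t, -, ht⟩ := hK.elim_nhds_subcover (fun x => Metric.ball x ε)
    (fun x _ => Metric.ball_mem_nhds x hε)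
  have hsub : ∀ x : X, Metric.ball x ε ⊆ (x - g₀) +ᵥ B := by
    intro x y hy
    refine ⟨y - (x - g₀), hAB (hA ?_), by simp⟩
    rw [Metric.mem_ball, dist_eq_norm] at hy ⊢
    have : y - (x - g₀) - g₀ = y - x := by abel
    rwa [this]
  have h0 : μ K = 0 := by
    refine measure_mono_null ht ?_
    refine (measure_biUnion_null_iff t.countable_toSet).2 fun x _ => ?_
    exact measure_mono_null (hsub x) (hμ _)
  exact hK0.ne' h0

theorem norm_def (g : Lip) : ‖g‖ = supNorm g + lipSeminorm g := rfl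

theorem abs_le_norm (g : Lip) (x : UnitAddCircle) : |g.toFun x| ≤ ‖g‖ := by
  have h1 : |g.toFun x| ≤ supNorm g := le_ciSup (bdd_sup g) x
  rw [norm_def]
  linarith [lipSeminorm_nonneg g]

theorem abs_sub_le_norm (g : Lip) (x y : UnitAddCircle) :
    |g.toFun x - g.toFun y| ≤ ‖g‖ * dist x y := by
  by_cases hxy : x = y
  · subst hxy; simp
  · have h1 : |g.toFun x - g.toFun y| / dist x y ≤ lipSeminorm g :=
      le_ciSup (bdd_lip g) ⟨(x, y), hxy⟩
    rw [div_le_iff₀ (dist_pos.2 hxy)] at h1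
    refine h1.trans (mul_le_mul_of_nonneg_right ?_ dist_nonneg)
    rw [norm_def]
    linarith [supNorm_nonneg g]

theorem dist_coe_le (x y : ℝ) : dist (x : UnitAddCircle) (y : UnitAddCircle) ≤ |x - y| := by
  rw [dist_eq_norm, ← AddCircle.coe_sub]
  exact QuotientAddGroup.norm_mk_le_norm

theorem abs_sub_le_real (g : Lip) (x y : ℝ) :
    |g.toFun (x : UnitAddCircle) - g.toFun (y : UnitAddCircle)| ≤ ‖g‖ * |x - y| :=
  (abs_sub_le_norm g _ _).trans (mul_le_mul_of_nonneg_left (dist_coe_le x y) (norm_nonneg _))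

theorem summable_aux {lam : ℝ} (h0 : 0 ≤ lam) (h1 : lam < 1) {F : ℕ → ℝ} {C : ℝ}
    (hF : ∀ k, |F k| ≤ C) : Summable fun k => lam ^ k * F k := by
  refine Summable.of_norm_bounded ((summable_geometric_of_lt_one h0 h1).mul_right C) fun k => ?_
  rw [Real.norm_eq_abs, abs_mul, abs_of_nonneg (pow_nonneg h0 k)]
  exact mul_le_mul_of_nonneg_left (hF k) (pow_nonneg h0 k)

theorem abs_tsum_le {lam : ℝ} (h0 : 0 ≤ lam) (h1 : lam < 1) {F : ℕ → ℝ} {C : ℝ}
    (hF : ∀ k, |F k| ≤ C) : |∑' k, lam ^ k * F k| ≤ (1 - lam)⁻¹ * C := by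
  rw [← tsum_geometric_of_lt_one h0 h1, ← tsum_mul_right, ← Real.norm_eq_abs]
  refine tsum_of_norm_bounded ((summable_geometric_of_lt_one h0 h1).mul_right C).hasSum
    fun k => ?_
  rw [Real.norm_eq_abs, abs_mul, abs_of_nonneg (pow_nonneg h0 k)]
  exact mul_le_mul_of_nonneg_left (hF k) (pow_nonneg h0 k)

/-- The key one-sided estimate. -/
theorem tsum_nonneg_aux {lam β η : ℝ} (h0 : 0 < lam) (h1 : lam < 1) (hβ : 1 < β) {m : ℕ}
    (hm : lam ^ (m + 1) ≤ (1 - lam) / 4) (hη : η * β ^ (m + 1) = 1 / 4) {F : ℝ → ℝ}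
    (hF : ∀ y, |F y| ≤ 2) (hF0 : ∀ y, 0 ≤ y → y ≤ 1 / 4 → 0 ≤ F y)
    (hF1 : ∀ y, η ≤ y → y ≤ 1 / 4 → 1 / 2 ≤ F y) {x : ℝ} (hx : 0 < x) (hxη : x < η) :
    0 ≤ ∑' k, lam ^ k * F (β ^ k * x) := by
  have hβ0 : 0 < β := lt_trans one_pos hβ
  have hex : ∃ j : ℕ, η ≤ β ^ j * x := by
    obtain ⟨j, hj⟩ := pow_unbounded_of_one_lt (η / x) hβ
    exact ⟨j, ((div_lt_iff₀ hx).1 hj).le⟩
  classical
  set j := Nat.find hex with hjdef
  have hj : η ≤ β ^ j * x := Nat.find_spec hex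
  have hj0 : j ≠ 0 := by
    intro h
    rw [h, pow_zero, one_mul] at hj
    linarith
  obtain ⟨i, hi⟩ := Nat.exists_eq_succ_of_ne_zero hj0
  have hi' : β ^ i * x < η := by
    have := Nat.find_min hex (show i < Nat.find hex by omega)
    exact lt_of_not_ge this
  have hle : ∀ k, k ≤ j + m → β ^ k * x ≤ 1 / 4 := by
    intro k hk
    calc β ^ k * x ≤ β ^ (i + (m + 1)) * x := by
          refine mul_le_mul_of_nonneg_right (pow_le_pow_right₀ hβ.le (by omega)) hx.le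
      _ = (β ^ i * x) * β ^ (m + 1) := by ring
      _ ≤ η * β ^ (m + 1) := mul_le_mul_of_nonneg_right hi'.le (pow_nonneg hβ0.le _)
      _ = 1 / 4 := hη
  have hs : Summable fun k => lam ^ k * F (β ^ k * x) :=
    summable_aux h0.le h1 fun k => hF _
  rw [← hs.sum_add_tsum_nat_add (j + m + 1)]
  have hhead : lam ^ j * (1 / 2) ≤ ∑ k ∈ Finset.range (j + m + 1), lam ^ k * F (β ^ k * x) := by
    refine le_trans ?_ (Finset.single_le_sum (f := fun k => lam ^ k * F (β ^ k * x))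
      (fun k hk => ?_) (Finset.mem_range.2 (show j < j + m + 1 by omega)))
    · exact mul_le_mul_of_nonneg_left (hF1 _ hj (hle j (by omega))) (pow_nonneg h0.le _)
    · rw [Finset.mem_range] at hk
      exact mul_nonneg (pow_nonneg h0.le _) (hF0 _ (by positivity) (hle k (by omega)))
  have htail : |∑' k, lam ^ (k + (j + m + 1)) * F (β ^ (k + (j + m + 1)) * x)|
      ≤ (1 - lam)⁻¹ * (lam ^ (j + m + 1) * 2) := by
    have : ∀ k, lam ^ (k + (j + m + 1)) * F (β ^ (k + (j + m + 1)) * x)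
        = lam ^ k * (lam ^ (j + m + 1) * F (β ^ (k + (j + m + 1)) * x)) := by
      intro k; rw [pow_add]; ring
    simp_rw [this]
    refine abs_tsum_le h0.le h1 fun k => ?_
    rw [abs_mul, abs_of_nonneg (pow_nonneg h0.le _)]
    exact mul_le_mul_of_nonneg_left (hF _) (pow_nonneg h0.le _)
  have h1l : 0 < 1 - lam := by linarith
  have hcmp : (1 - lam)⁻¹ * (lam ^ (j + m + 1) * 2) ≤ lam ^ j * (1 / 2) := by
    rw [inv_mul_le_iff₀ h1l, add_assoc, pow_add]
    have := mul_le_mul_of_nonneg_left hm (pow_nonneg h0.le j)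
    nlinarith
  have := neg_abs_le (∑' k, lam ^ (k + (j + m + 1)) * F (β ^ (k + (j + m + 1)) * x))
  linarith

/-- The triangular wave. -/
noncomputable def tri (y : UnitAddCircle) : ℝ := 1 / 4 - ‖y - ((1 / 4 : ℝ) : UnitAddCircle)‖

theorem tri_coe {y : ℝ} (h1 : -(1 / 4) ≤ y) (h2 : y ≤ 1 / 4) : tri (y : UnitAddCircle) = y := by
  unfold tri
  rw [← AddCircle.coe_sub, (AddCircle.norm_coe_eq_abs_iff (1 : ℝ) one_ne_zero).2]
  · rw [abs_of_nonpos (by linarith)]; ring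
  · rw [abs_of_nonpos (by linarith), abs_one]; linarith

theorem tri_lip : LipschitzWith 1 tri := by
  refine LipschitzWith.of_dist_le_mul fun x y => ?_
  unfold tri
  rw [Real.dist_eq, NNReal.coe_one, one_mul, dist_eq_norm]
  have h := abs_norm_sub_norm_le (y - ((1 / 4 : ℝ) : UnitAddCircle))
    (x - ((1 / 4 : ℝ) : UnitAddCircle))
  rw [sub_sub_sub_cancel_right, norm_sub_rev y x] at h
  refine le_trans (le_of_eq ?_) h
  congr 1
  ring

theorem mul_tri_lip (A : NNReal) : LipschitzWith A fun y => (A : ℝ) * tri y := by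
  refine LipschitzWith.of_dist_le_mul fun x y => ?_
  have h := tri_lip.dist_le_mul x y
  rw [NNReal.coe_one, one_mul] at h
  rw [Real.dist_eq, ← mul_sub, abs_mul, abs_of_nonneg A.coe_nonneg]
  exact mul_le_mul_of_nonneg_left h A.coe_nonneg

/-- The steep odd function. -/
noncomputable def steep (A : NNReal) : Lip :=
  (⟨fun y => max (-1) (min 1 (A * tri y)),
    ⟨_, ((mul_tri_lip A).const_min 1).const_max (-1)⟩⟩ : lipSubgroup)

theorem steep_apply (A : NNReal) (y : UnitAddCircle) :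
    (steep A).toFun y = max (-1) (min 1 (A * tri y)) := rfl

theorem coe_int_add (n : ℕ) (v : ℝ) : (((n : ℝ) + v : ℝ) : UnitAddCircle) = (v : UnitAddCircle) := by
  rw [AddCircle.coe_add]
  have : (((n : ℝ) : ℝ) : UnitAddCircle) = 0 := by
    rw [AddCircle.coe_eq_zero_iff]
    exact ⟨n, by simp⟩
  rw [this, zero_add]

/-- Monotonicity through the point `1/b` after adding a steep linear function. -/
theorem exists_ball (b : ℕ) (hb : 2 ≤ b) (α : ℝ) (hα : 0 < α) :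
    ∃ (g₀ : Lip) (c₀ : ℝ), 0 < c₀ ∧ ∀ g ∈ Metric.ball g₀ (1 / 4),
      (∃ x y, g.toFun x ≠ g.toFun y) ∧ ∀ c : ℝ, c₀ ≤ c →
        (∀ x, (b : ℝ)⁻¹ < x → weierstrass b α g (b : ℝ)⁻¹ + c * (b : ℝ)⁻¹
          < weierstrass b α g x + c * x) ∧
        (∀ x, x < (b : ℝ)⁻¹ → weierstrass b α g x + c * x
          < weierstrass b α g (b : ℝ)⁻¹ + c * (b : ℝ)⁻¹) ∧
        ∃ C, ∀ x, |weierstrass b α g x| ≤ C := by
  have hβ : (1 : ℝ) < b := by exact_mod_cast (show 1 < b by omega)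
  have hβ0 : (0 : ℝ) < b := lt_trans one_pos hβ
  set lam : ℝ := (b : ℝ) ^ (-α) with hlam
  have h0 : 0 < lam := Real.rpow_pos_of_pos hβ0 _
  have h1 : lam < 1 := Real.rpow_lt_one_of_one_lt_of_neg hβ (by linarith)
  have h1l : 0 < 1 - lam := by linarith
  have hW : ∀ (g : Lip) (x : ℝ), weierstrass b α g x =
      ∑' k : ℕ, lam ^ k * g.toFun (((b : ℝ) ^ k * x : ℝ) : UnitAddCircle) := by
    intro g x
    unfold weierstrass
    congr 1
    ext k
    rw [Real.rpow_mul hβ0.le, Real.rpow_natCast]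
  obtain ⟨m, hm⟩ := exists_pow_lt_of_lt_one (show 0 < (1 - lam) / 4 by linarith) h1
  have hm' : lam ^ (m + 1) ≤ (1 - lam) / 4 :=
    le_trans (pow_le_pow_of_le_one h0.le h1.le (Nat.le_succ m)) hm.le
  set P : ℝ := (b : ℝ) ^ (m + 1) with hP
  have hP1 : 1 ≤ P := one_le_pow₀ hβ.le
  have hP0 : 0 < P := lt_of_lt_of_le one_pos hP1
  set η : ℝ := 1 / (4 * P) with hηdef
  have hη0 : 0 < η := by positivity
  have hη : η * (b : ℝ) ^ (m + 1) = 1 / 4 := by rw [hηdef, ← hP]; field_simp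
  have hη4 : η ≤ 1 / 4 := by
    rw [hηdef]
    exact one_div_le_one_div_of_le (by norm_num) (by linarith)
  let A : NNReal := ⟨4 * P, by positivity⟩
  have hA : (A : ℝ) = 4 * P := rfl
  have hAη : (A : ℝ) * η = 1 := by rw [hA, hηdef]; field_simp
  set N : ℝ := ‖steep A‖ + 1 / 4 with hN
  have hN0 : 0 < N := by positivity
  refine ⟨steep A, N + 1 + 2 * ((1 - lam)⁻¹ * N) / (η / b), by positivity, fun g hg => ?_⟩
  rw [Metric.mem_ball, dist_eq_norm] at hg
  have hgN : ‖g‖ ≤ N := by linarith [norm_sub_norm_le g (steep A)]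
  set h : Lip := g - steep A with hh
  have hgh : ∀ y, g.toFun y = max (-1) (min 1 (A * tri y)) + h.toFun y := by
    intro y
    rw [← steep_apply]
    change g.toFun y = (steep A).toFun y + (g.toFun y - (steep A).toFun y)
    ring
  have hsup : ∀ y, |h.toFun y| ≤ 1 / 4 := fun y => (abs_le_norm h y).trans hg.le
  have hlip : ∀ x y : ℝ, |h.toFun (x : UnitAddCircle) - h.toFun (y : UnitAddCircle)|
      ≤ 1 / 4 * |x - y| := fun x y =>
    (abs_sub_le_real h x y).trans (mul_le_mul_of_nonneg_right hg.le (abs_nonneg _))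
  set G : ℝ → ℝ := fun y => g.toFun (y : UnitAddCircle) with hG
  have hG0 : G 0 = h.toFun ((0 : ℝ) : UnitAddCircle) := by
    simp only [hG]
    rw [hgh, tri_coe (by norm_num) (by norm_num)]
    simp
  have hGb : ∀ y, |G y - G 0| ≤ 2 := by
    intro y
    rw [hG0]
    simp only [hG]
    rw [hgh]
    have a1 := abs_le.1 (hsup (y : UnitAddCircle))
    have a2 := abs_le.1 (hsup ((0 : ℝ) : UnitAddCircle))
    have a3 : -1 ≤ max (-1 : ℝ) (min 1 (A * tri (y : UnitAddCircle))) := le_max_left _ _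
    have a4 : max (-1 : ℝ) (min 1 (A * tri (y : UnitAddCircle))) ≤ 1 :=
      max_le (by norm_num) (min_le_left _ _)
    rw [abs_le]
    constructor <;> linarith [a1.1, a1.2, a2.1, a2.2]
  have hA4 : (4 : ℝ) ≤ A := by rw [hA]; linarith
  have hpos0 : ∀ y, 0 ≤ y → y ≤ 1 / 4 → 0 ≤ G y - G 0 := by
    intro y hy0 hy
    rw [hG0]
    simp only [hG]
    rw [hgh, tri_coe (by linarith) hy]
    have a1 := abs_le.1 (hlip y 0)
    rw [sub_zero, abs_of_nonneg hy0] at a1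
    have a3 : y ≤ max (-1 : ℝ) (min 1 (A * y)) :=
      le_max_of_le_right (le_min (by linarith) (by nlinarith))
    linarith [a1.1]
  have hneg0 : ∀ y, 0 ≤ y → y ≤ 1 / 4 → 0 ≤ -(G (-y) - G 0) := by
    intro y hy0 hy
    rw [hG0]
    simp only [hG]
    rw [hgh, tri_coe (by linarith) (by linarith)]
    have a1 := abs_le.1 (hlip (-y) 0)
    rw [sub_zero, abs_neg, abs_of_nonneg hy0] at a1
    have a3 : max (-1 : ℝ) (min 1 (A * (-y))) ≤ -y :=
      max_le (by linarith) (min_le_of_right_le (by nlinarith))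
    linarith [a1.2]
  have hpos1 : ∀ y, η ≤ y → y ≤ 1 / 4 → 1 / 2 ≤ G y - G 0 := by
    intro y hy0 hy
    rw [hG0]
    simp only [hG]
    rw [hgh, tri_coe (by linarith) hy]
    have a1 := abs_le.1 (hsup (y : UnitAddCircle))
    have a2 := abs_le.1 (hsup ((0 : ℝ) : UnitAddCircle))
    have a3 : 1 ≤ max (-1 : ℝ) (min 1 (A * y)) :=
      le_max_of_le_right (le_min le_rfl (by nlinarith))
    linarith [a1.1, a2.2]
  have hneg1 : ∀ y, η ≤ y → y ≤ 1 / 4 → 1 / 2 ≤ -(G (-y) - G 0) := by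
    intro y hy0 hy
    rw [hG0]
    simp only [hG]
    rw [hgh, tri_coe (by linarith) (by linarith)]
    have a1 := abs_le.1 (hsup ((-y : ℝ) : UnitAddCircle))
    have a2 := abs_le.1 (hsup ((0 : ℝ) : UnitAddCircle))
    have a3 : max (-1 : ℝ) (min 1 (A * (-y))) ≤ -1 :=
      max_le le_rfl (min_le_of_right_le (by nlinarith))
    linarith [a1.2, a2.1]
  have hGn : ∀ y, |G y| ≤ N := fun y => (abs_le_norm g _).trans hgN
  have hsumm : ∀ x : ℝ, Summable fun k : ℕ => lam ^ k * G ((b : ℝ) ^ k * x) :=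
    fun x => summable_aux h0.le h1 fun k => hGn _
  have hW' : ∀ x : ℝ, weierstrass b α g x = ∑' k : ℕ, lam ^ k * G ((b : ℝ) ^ k * x) := hW g
  have hW0 : weierstrass b α g 0 = ∑' k : ℕ, lam ^ k * G 0 := by
    rw [hW']; simp only [mul_zero]
  have hsumm0 : Summable fun k : ℕ => lam ^ k * G 0 := by
    simpa only [mul_zero] using hsumm 0
  have hright : ∀ x, 0 < x → x < η → weierstrass b α g 0 ≤ weierstrass b α g x := by
    intro x hx hxη
    have := tsum_nonneg_aux h0 h1 hβ hm' hη (F := fun y => G y - G 0) hGb hpos0 hpos1 hx hxη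
    simp only [mul_sub] at this
    rw [(hsumm x).tsum_sub hsumm0, ← hW', ← hW0] at this
    linarith
  have hleft : ∀ x, 0 < x → x < η → weierstrass b α g (-x) ≤ weierstrass b α g 0 := by
    intro x hx hxη
    have := tsum_nonneg_aux h0 h1 hβ hm' hη (F := fun y => -(G (-y) - G 0))
      (fun y => by rw [abs_neg]; exact hGb _) hneg0 hneg1 hx hxη
    simp only [neg_sub, mul_sub, ← mul_neg] at this
    rw [hsumm0.tsum_sub (hsumm (-x)), ← hW', ← hW0] at this
    linarith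
  have hself : ∀ u : ℝ, weierstrass b α g ((b : ℝ)⁻¹ + u) =
      G ((b : ℝ)⁻¹ + u) + lam * weierstrass b α g (b * u) := by
    intro u
    rw [hW', (hsumm _).tsum_eq_zero_add, hW', ← tsum_mul_left]
    simp only [pow_zero, one_mul]
    congr 1
    congr 1
    ext k
    have e1 : (b : ℝ) ^ (k + 1) * ((b : ℝ)⁻¹ + u) = ((b ^ k : ℕ) : ℝ) + (b : ℝ) ^ k * (b * u) := by
      push_cast
      field_simp
      ring
    simp only [hG]
    rw [e1, coe_int_add, pow_succ]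
    ring
  set C : ℝ := (1 - lam)⁻¹ * N with hC
  have hCb : ∀ x, |weierstrass b α g x| ≤ C := by
    intro x
    rw [hW']
    exact abs_tsum_le h0.le h1 fun k => hGn _
  have hC0 : 0 ≤ C := (abs_nonneg _).trans (hCb 0)
  have hGl : ∀ x y : ℝ, |G x - G y| ≤ ‖g‖ * |x - y| := abs_sub_le_real g
  set δ : ℝ := η / b with hδ
  have hδ0 : 0 < δ := by positivity
  have hx0 : weierstrass b α g (b : ℝ)⁻¹ = G (b : ℝ)⁻¹ + lam * weierstrass b α g 0 := by
    simpa using hself 0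
  refine ⟨⟨((1 / 4 : ℝ) : UnitAddCircle), ((0 : ℝ) : UnitAddCircle), fun he => ?_⟩,
    fun c hc => ?_⟩
  · have := hpos1 (1 / 4) hη4 le_rfl
    simp only [hG] at this
    linarith
  have hc1 : ‖g‖ + 1 ≤ c := by
    have : 0 ≤ 2 * C / δ := by positivity
    linarith
  have hc2 : 2 * C < c * δ := by
    have h1 : (N + 1 + 2 * C / δ) * δ = (N + 1) * δ + 2 * C := by field_simp
    have h2 : 0 < (N + 1) * δ := by positivity
    linarith [mul_le_mul_of_nonneg_right hc hδ0.le]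
  have hc0 : 0 < c := by linarith [norm_nonneg g]
  refine ⟨fun x hx => ?_, fun x hx => ?_, C, hCb⟩
  · obtain ⟨u, rfl⟩ : ∃ u, x = (b : ℝ)⁻¹ + u := ⟨x - (b : ℝ)⁻¹, by ring⟩
    have hu : 0 < u := by linarith
    by_cases huδ : u < δ
    · have a1 := hright (b * u) (by positivity) (by rw [hδ, lt_div_iff₀ hβ0] at huδ; linarith)
      have a2 := abs_le.1 (hGl ((b : ℝ)⁻¹ + u) (b : ℝ)⁻¹)
      rw [add_sub_cancel_left, abs_of_pos hu] at a2
      rw [hself, hx0]
      linarith [a2.1, mul_le_mul_of_nonneg_left a1 h0.le, mul_le_mul_of_nonneg_right hc1 hu.le]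
    · push Not at huδ
      have a1 := abs_le.1 (hCb ((b : ℝ)⁻¹ + u))
      have a2 := abs_le.1 (hCb (b : ℝ)⁻¹)
      linarith [a1.1, a2.2, mul_le_mul_of_nonneg_left huδ hc0.le]
  · obtain ⟨u, rfl⟩ : ∃ u, x = (b : ℝ)⁻¹ + -u := ⟨(b : ℝ)⁻¹ - x, by ring⟩
    have hu : 0 < u := by linarith
    by_cases huδ : u < δ
    · have a1 := hleft (b * u) (by positivity) (by rw [hδ, lt_div_iff₀ hβ0] at huδ; linarith)
      have a2 := abs_le.1 (hGl ((b : ℝ)⁻¹ + -u) (b : ℝ)⁻¹)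
      rw [add_sub_cancel_left, abs_neg, abs_of_pos hu] at a2
      rw [hself, hx0, mul_neg]
      linarith [a2.2, mul_le_mul_of_nonneg_left a1 h0.le, mul_le_mul_of_nonneg_right hc1 hu.le]
    · push Not at huδ
      have a1 := abs_le.1 (hCb ((b : ℝ)⁻¹ + -u))
      have a2 := abs_le.1 (hCb (b : ℝ)⁻¹)
      linarith [a1.2, a2.1, mul_le_mul_of_nonneg_left huδ hc0.le]

theorem exists_slice (b : ℕ) (hb : 2 ≤ b) (α : ℝ) (g : Lip) {c θ : ℝ} (hc : 0 < c)
    (hsin : 0 < Real.sin θ) (htan : Real.cos θ = c * Real.sin θ)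
    (hr : ∀ x, (b : ℝ)⁻¹ < x → weierstrass b α g (b : ℝ)⁻¹ + c * (b : ℝ)⁻¹
      < weierstrass b α g x + c * x)
    (hl : ∀ x, x < (b : ℝ)⁻¹ → weierstrass b α g x + c * x
      < weierstrass b α g (b : ℝ)⁻¹ + c * (b : ℝ)⁻¹)
    {C : ℝ} (hC : ∀ x, |weierstrass b α g x| ≤ C) :
    ∃ t ∈ Ioo (sInf (proj θ '' graph b α g)) (sSup (proj θ '' graph b α g)),
      (graph b α g ∩ proj θ ⁻¹' {t}).Subsingleton := by
  have hβ : (1 : ℝ) < b := by exact_mod_cast (show 1 < b by omega)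
  have hβ0 : (0 : ℝ) < b := lt_trans one_pos hβ
  have hproj : ∀ p ∈ graph b α g,
      proj θ p = Real.sin θ * (weierstrass b α g (p 0) + c * p 0) := by
    intro p hp
    unfold proj
    rw [hp.2, htan]
    ring
  have hbdd : ∀ r ∈ proj θ '' graph b α g, |r| ≤ Real.sin θ * (C + c) := by
    rintro _ ⟨p, hp, rfl⟩
    rw [hproj p hp, abs_mul, abs_of_pos hsin]
    refine mul_le_mul_of_nonneg_left ((abs_add_le _ _).trans (add_le_add (hC _) ?_)) hsin.le
    rw [abs_of_nonneg (mul_nonneg hc.le hp.1.1)]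
    nlinarith [hp.1.2]
  have hmem : ∀ x ∈ Icc (0 : ℝ) 1,
      Real.sin θ * (weierstrass b α g x + c * x) ∈ proj θ '' graph b α g := by
    intro x hx
    have hp : (!₂[x, weierstrass b α g x] : EuclideanSpace ℝ (Fin 2)) ∈ graph b α g :=
      ⟨by simpa using hx, by simp⟩
    exact ⟨_, hp, by rw [hproj _ hp]; simp⟩
  refine ⟨Real.sin θ * (weierstrass b α g (b : ℝ)⁻¹ + c * (b : ℝ)⁻¹), ⟨?_, ?_⟩, ?_⟩
  · refine lt_of_le_of_lt (csInf_le ⟨-(Real.sin θ * (C + c)), fun r hr => (abs_le.1 (hbdd r hr)).1⟩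
      (hmem 0 ⟨le_rfl, zero_le_one⟩)) ?_
    exact mul_lt_mul_of_pos_left (hl 0 (inv_pos.2 hβ0)) hsin
  · refine lt_of_lt_of_le ?_ (le_csSup ⟨Real.sin θ * (C + c), fun r hr => (abs_le.1 (hbdd r hr)).2⟩
      (hmem 1 ⟨zero_le_one, le_rfl⟩))
    exact mul_lt_mul_of_pos_left (hr 1 (inv_lt_one_of_one_lt₀ hβ)) hsin
  · have key : ∀ p ∈ graph b α g ∩ proj θ ⁻¹'
        {Real.sin θ * (weierstrass b α g (b : ℝ)⁻¹ + c * (b : ℝ)⁻¹)}, p 0 = (b : ℝ)⁻¹ := by
      rintro p ⟨hp, hpt⟩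
      rw [mem_preimage, mem_singleton_iff, hproj p hp] at hpt
      have hpt' := mul_left_cancel₀ hsin.ne' hpt
      rcases lt_trichotomy (p 0) (b : ℝ)⁻¹ with h | h | h
      · exact absurd hpt' (hl _ h).ne
      · exact h
      · exact absurd hpt' (hr _ h).ne'
    intro p hp q hq
    ext i
    fin_cases i
    · exact (key p hp).trans (key q hq).symm
    · change p 1 = q 1
      rw [hp.1.2, hq.1.2, key p hp, key q hq]

/-- A ball of functions with a one-point non-extremal slice in each direction of an interval. -/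
theorem exists_ball_dir (b : ℕ) (hb : 2 ≤ b) (α : ℝ) (hα : 0 < α) :
    ∃ (g₀ : Lip) (θ₀ : ℝ), 0 < θ₀ ∧ θ₀ < Real.pi / 2 ∧ ∀ g ∈ Metric.ball g₀ (1 / 4),
      (∃ x y, g.toFun x ≠ g.toFun y) ∧ ∀ θ ∈ Ioo 0 θ₀,
        ∃ t ∈ Ioo (sInf (proj θ '' graph b α g)) (sSup (proj θ '' graph b α g)),
          dimH (graph b α g ∩ proj θ ⁻¹' {t}) = 0 := by
  obtain ⟨g₀, c₀, hc₀, h⟩ := exists_ball b hb α hα
  have h1 := Real.arctan_lt_pi_div_two c₀⁻¹
  refine ⟨g₀, Real.arctan c₀⁻¹, Real.arctan_pos.2 (inv_pos.2 hc₀), h1, fun g hg =>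
    ⟨(h g hg).1, fun θ hθ => ?_⟩⟩
  have hsin : 0 < Real.sin θ :=
    Real.sin_pos_of_pos_of_lt_pi hθ.1 (by linarith [Real.pi_pos, hθ.2])
  have hcos : 0 < Real.cos θ :=
    Real.cos_pos_of_mem_Ioo ⟨by linarith [Real.pi_pos, hθ.1], by linarith [hθ.2]⟩
  have ht : Real.sin θ / Real.cos θ < c₀⁻¹ := by
    rw [← Real.tan_eq_sin_div_cos, ← Real.tan_arctan c₀⁻¹]
    exact Real.tan_lt_tan_of_nonneg_of_lt_pi_div_two hθ.1.le h1 hθ.2
  have hc : c₀ ≤ Real.cos θ / Real.sin θ := by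
    rw [← inv_div]
    exact (lt_inv_of_lt_inv₀ (div_pos hsin hcos) ht).le
  obtain ⟨hr, hl, C, hC⟩ := (h g hg).2 _ hc
  obtain ⟨t, ht, hs⟩ := exists_slice b hb α g (div_pos hcos hsin) hsin
    (div_mul_cancel₀ _ hsin.ne').symm hr hl hC
  exact ⟨t, ht, dimH_subsingleton hs⟩

end Pool.Agent.Lib.MP_60983f_an
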